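import Pool.Agent.ZES.StmtsC

/-!
Squad ZES, row CHN: the chain lemma.
-/

set_option autoImplicit false

namespace Pool.Agent.ZES.H86

open Pool.Agent.ZES

theorem chn (hUMU : UmuStmt) (hBAD : BadStmt) (hDIK : DikStmt) : ChnStmt := by
  intro M
  obtain ⟨J, hJ⟩ := hDIK M
  refine ⟨J, ?_⟩
  intro K R _ _ _ v I
  by_contra hcon
  push Not at hcon
  obtain ⟨w, hw1, hw2⟩ := hBAD M J K R v I (fun j hj hle =>
    hcon j hj ((hUMU M K R v I).2 (2 ^ j) hle))
  obtain ⟨i, j, hij, hjJ, hle⟩ := hJ w hw1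
  exact hw2 i j hij hjJ hle

end Pool.Agent.ZES.H86
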