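import Pool.Agent.ZES.StmtsF

/-!
Squad ZES, row PIC: complex translations of the real cube.
-/

set_option autoImplicit false

namespace Pool.Agent.ZES.H86

open Pool.Agent.ZES MeasureTheory Filter Topology Metric

theorem pic (hPRT : PrtStmt) : PicStmt := by
  intro g G hG w
  obtain ⟨hd, hper⟩ := hG
  have hGc : Continuous G := hd.continuous
  -- the integrand with a complex parameter
  obtain ⟨Φ, hΦ⟩ : ∃ Φ : ℂ → (Fin g → ℝ) → ℂ, Φ = fun s t =>
      G (fun i => ((t i : ℝ) : ℂ) + (((w i).re : ℂ) + s * ((w i).im : ℂ))) := ⟨_, rfl⟩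
  have hΦc : Continuous (fun p : ℂ × (Fin g → ℝ) => Φ p.1 p.2) := by
    rw [hΦ]
    refine hGc.comp (continuous_pi fun i => ?_)
    exact (Complex.continuous_ofReal.comp ((continuous_apply i).comp continuous_snd)).add
      (continuous_const.add (continuous_fst.mul continuous_const))
  have hΦd : ∀ t, Differentiable ℂ (fun s => Φ s t) := by
    intro t
    rw [hΦ]
    refine hd.comp ?_
    rw [differentiable_pi]
    intro i
    exact (differentiable_const _).add
      ((differentiable_const _).add (differentiable_id.mul (differentiable_const _)))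
  obtain ⟨B, hB⟩ : ∃ B : ℂ → ℂ, B = fun s => ∫ t in Set.Icc (0 : Fin g → ℝ) 1, Φ s t := ⟨_, rfl⟩
  have hcpt : IsCompact (Set.Icc (0 : Fin g → ℝ) 1) := isCompact_Icc
  have hBd : Differentiable ℂ B := by
    intro s₀
    obtain ⟨M, hM⟩ := (((isCompact_closedBall s₀ 2).prod hcpt).exists_bound_of_continuousOn
      hΦc.continuousOn)
    have hmeas : Measurable (fun p : (Fin g → ℝ) × ℂ => deriv (fun s => Φ s p.1) p.2) :=
      measurable_deriv_with_param (f := fun t s => Φ s t)
        (hΦc.comp (continuous_snd.prodMk continuous_fst))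
    have key := hasDerivAt_integral_of_dominated_loc_of_deriv_le
      (μ := volume.restrict (Set.Icc (0 : Fin g → ℝ) 1)) (F := fun s t => Φ s t)
      (F' := fun s t => deriv (fun s => Φ s t) s) (x₀ := s₀) (s := ball s₀ 1)
      (bound := fun _ => M / 1) (ball_mem_nhds s₀ one_pos)
      (Eventually.of_forall fun s =>
        ((hΦc.comp (continuous_const.prodMk continuous_id)).aestronglyMeasurable))
      ((hΦc.comp (continuous_const.prodMk continuous_id)).continuousOn.integrableOn_compact hcpt)
      ((hmeas.comp (measurable_id.prodMk measurable_const)).aestronglyMeasurable)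
      (by
        refine (ae_restrict_iff' measurableSet_Icc).mpr (Eventually.of_forall fun t ht s hs => ?_)
        refine Complex.norm_deriv_le_of_forall_mem_sphere_norm_le one_pos
          (hΦd t).diffContOnCl (fun z hz => ?_)
        refine hM (z, t) ⟨?_, ht⟩
        rw [mem_closedBall]
        rw [mem_sphere] at hz
        rw [mem_ball] at hs
        calc dist z s₀ ≤ dist z s + dist s s₀ := dist_triangle _ _ _
          _ ≤ 2 := by linarith)
      (integrableOn_const (by exact hcpt.measure_lt_top.ne))
      (Eventually.of_forall fun t s _ => ((hΦd t) s).hasDerivAt)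
    rw [hB]
    exact key.2.differentiableAt
  -- real parameters
  have hreal : ∀ s : ℝ, B (s : ℂ) = ∫ t in Set.Icc (0 : Fin g → ℝ) 1,
      G (fun i => ((t i : ℝ) : ℂ)) := by
    intro s
    have h1 := hPRT g (fun t => G (fun i => ((t i : ℝ) : ℂ)))
      (hGc.comp (continuous_pi fun i => Complex.continuous_ofReal.comp (continuous_apply i)))
      (fun t p => by
        have h2 := hper (fun i => ((t i : ℝ) : ℂ)) p
        rw [← h2]
        congr 1
        funext i
        push_cast
        rfl)
      (fun i => (w i).re + s * (w i).im)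
    rw [← h1, hB, hΦ]
    simp only
    congr 1
    funext t
    congr 1
    funext i
    rw [Pi.add_apply]
    push_cast
    rfl
  have hconst : B = fun _ => ∫ t in Set.Icc (0 : Fin g → ℝ) 1, G (fun i => ((t i : ℝ) : ℂ)) := by
    refine AnalyticOnNhd.eq_of_frequently_eq (z₀ := 0)
      (fun z _ => hBd.analyticAt z) (fun z _ => analyticAt_const) ?_
    have h1 : Tendsto (fun m : ℕ => ((1 / ((m : ℝ) + 1) : ℝ) : ℂ)) atTop (𝓝[≠] 0) := by
      refine tendsto_nhdsWithin_iff.mpr ⟨?_, Eventually.of_forall fun m => ?_⟩
      · have h2 := (Complex.continuous_ofReal.tendsto (0 : ℝ)).comp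
          (tendsto_one_div_add_atTop_nhds_zero_nat (𝕜 := ℝ))
        rw [Complex.ofReal_zero] at h2
        exact h2
      · have h3 : (1 / ((m : ℝ) + 1) : ℝ) ≠ 0 := by positivity
        exact Complex.ofReal_ne_zero.mpr h3
    exact h1.frequently (Frequently.of_forall fun m => hreal _)
  have hI := congrFun hconst Complex.I
  rw [hB, hΦ] at hI
  simp only at hI
  rw [← hI]
  congr 1
  funext t
  congr 1
  funext i
  congr 1
  rw [mul_comm Complex.I]
  exact (Complex.re_add_im (w i)).symm

end Pool.Agent.ZES.H86
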